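import Pool.Agent.H42.PolD

open Pool.Agent.H42.PolD

/-- If `d` is singular then the strong polarized relation at `d` fails. -/
theorem Pool.Agent.Results.MP_10964f_lc.Full.result (h : dNum.IsSingular) : ¬ Pol dNum :=
  fun hp => h.not_isRegular (regular_d (pol_iff.1 hp))
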